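import Mathlib

/-!
# Rotationally symmetric tilings of triangular arrays (MP_ad0b59_co)

The point `(x, y)` of `T N` has the distances `x`, `y`, `N - 1 - x - y` (in rows) from the three sides of the
array. The square of the distance of two points is `u² + u v + v²`, `u`, `v` the differences of their
coordinates; the rotation by `120°` about the centre is `(x, y) ↦ (y, N - 1 - x - y)`.

A tiling which is invariant under the rotation has at most one tile which is mapped to itself (the triangle in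
the centre), so the number `N (N + 1) / 6` of its tiles is `0` or `1` modulo `3`. Hence there is no such tiling
if `N` is `12`, `14`, `21` or `23` modulo `36`.
-/

set_option autoImplicit false

open Finset

namespace Pool.Agent.Results.MP_ad0b59_co.SymmetricTilings

/-- The triangular array with `N` points on each side. -/
def T (N : ℕ) : Finset (ℕ × ℕ) := ((range N) ×ˢ (range N)).filter fun p => p.1 + p.2 < N

/-- The points `p` and `q` have distance `1`. -/
def Adj (p q : ℕ × ℕ) : Prop :=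
  ((p.1 : ℤ) - q.1) ^ 2 + ((p.1 : ℤ) - q.1) * ((p.2 : ℤ) - q.2) + ((p.2 : ℤ) - q.2) ^ 2 = 1

/-- A tile: three mutually adjacent points. -/
def IsTile (t : Finset (ℕ × ℕ)) : Prop := t.card = 3 ∧ ∀ p ∈ t, ∀ q ∈ t, p ≠ q → Adj p q

/-- `D` is a tiling of `T N`: its members are tiles in `T N`, and every point of `T N` lies in exactly one. -/
def IsTiling (N : ℕ) (D : Finset (Finset (ℕ × ℕ))) : Prop :=
  (∀ t ∈ D, IsTile t ∧ t ⊆ T N) ∧ ∀ p ∈ T N, ∃! t, t ∈ D ∧ p ∈ t

/-- The rotation by `120°` about the centre of `T N`. -/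
def rot (N : ℕ) (p : ℕ × ℕ) : ℕ × ℕ := (p.2, N - 1 - p.1 - p.2)

/-- The rotation maps every tile of `D` to a tile of `D`. -/
def IsSymmetric (N : ℕ) (D : Finset (Finset (ℕ × ℕ))) : Prop := ∀ t ∈ D, t.image (rot N) ∈ D

/-- `S(N)`, the number of the rotationally symmetric tilings of `T N`. -/
noncomputable def S (N : ℕ) : ℕ := {D | IsTiling N D ∧ IsSymmetric N D}.ncard

theorem mem_T {N : ℕ} {p : ℕ × ℕ} : p ∈ T N ↔ p.1 + p.2 < N := by
  unfold T
  rw [mem_filter, mem_product, mem_range, mem_range]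
  constructor
  · exact fun h => h.2
  · exact fun h => ⟨⟨by omega, by omega⟩, h⟩

theorem gauss (N : ℕ) : 2 * ∑ x ∈ range N, (N - x) = N * (N + 1) := by
  induction N with
  | zero => rfl
  | succ N ih =>
    rw [sum_range_succ']
    have h : ∀ x ∈ range N, N + 1 - (x + 1) = N - x := fun x _ => by omega
    rw [sum_congr rfl h, mul_add, ih]
    simp only [Nat.sub_zero]
    ring

theorem card_T (N : ℕ) : 2 * (T N).card = N * (N + 1) := by
  rw [← gauss N]
  congr 1
  unfold T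
  rw [card_filter, sum_product]
  refine sum_congr rfl fun x hx => ?_
  rw [mem_range] at hx
  rw [← card_filter]
  have h : (range N).filter (fun y => x + y < N) = range (N - x) := by
    ext y
    rw [mem_filter, mem_range, mem_range]
    omega
  exact (congrArg Finset.card h).trans (card_range _)

theorem card_D {N : ℕ} {D : Finset (Finset (ℕ × ℕ))} (h : IsTiling N D) : (T N).card = 3 * D.card := by
  have h1 : T N = D.biUnion id := by
    ext p
    rw [mem_biUnion]
    constructor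
    · intro hp
      obtain ⟨t, ht, -⟩ := h.2 p hp
      exact ⟨t, ht.1, ht.2⟩
    · rintro ⟨t, ht, hp⟩
      exact (h.1 t ht).2 hp
  have h2 : (D : Set (Finset (ℕ × ℕ))).PairwiseDisjoint id := by
    intro t ht t' ht' hne
    rw [Function.onFun, id, id, Finset.disjoint_left]
    intro p hp hp'
    obtain ⟨s, -, hs⟩ := h.2 p ((h.1 t ht).2 hp)
    exact hne ((hs t ⟨ht, hp⟩).trans (hs t' ⟨ht', hp'⟩).symm)
  have h3 : ∀ t ∈ D, (id t : Finset (ℕ × ℕ)).card = 3 := fun t ht => (h.1 t ht).1.1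
  rw [h1, card_biUnion h2, sum_congr rfl h3, sum_const, smul_eq_mul, mul_comm]

theorem rot3 {N : ℕ} {p : ℕ × ℕ} (hp : p ∈ T N) : rot N (rot N (rot N p)) = p := by
  rw [mem_T] at hp
  obtain ⟨x, y⟩ := p
  unfold rot
  simp only at hp ⊢
  exact Prod.ext (by simp only; omega) (by simp only; omega)

theorem rot_mem {N : ℕ} {p : ℕ × ℕ} (hp : p ∈ T N) : rot N p ∈ T N := by
  rw [mem_T] at hp ⊢
  unfold rot
  simp only
  omega

/-- the differences of adjacent points -/
theorem small {u v : ℤ} (h : u ^ 2 + u * v + v ^ 2 = 1) : -1 ≤ u ∧ u ≤ 1 ∧ -1 ≤ v ∧ v ≤ 1 := by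
  refine ⟨?_, ?_, ?_, ?_⟩ <;> nlinarith [sq_nonneg (u + 2 * v), sq_nonneg (2 * u + v), sq_nonneg u, sq_nonneg v]

/-- an invariant tile contains a point adjacent to its image -/
theorem exists_pt {N : ℕ} {t : Finset (ℕ × ℕ)} (ht : IsTile t) (hT : t ⊆ T N)
    (hfix : t.image (rot N) = t) : ∃ p ∈ t, Adj p (rot N p) := by
  obtain ⟨p, hp, q, hq, hpq⟩ := Finset.one_lt_card.1 (show 1 < t.card by rw [ht.1]; norm_num)
  have hr : ∀ p ∈ t, rot N p ∈ t := fun p hp => by
    rw [← hfix]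
    exact mem_image_of_mem _ hp
  by_cases h1 : p = rot N p
  · by_cases h2 : q = rot N q
    · exfalso
      apply hpq
      have a1 := mem_T.1 (hT hp)
      have a2 := mem_T.1 (hT hq)
      obtain ⟨x, y⟩ := p
      obtain ⟨x', y'⟩ := q
      unfold rot at h1 h2
      rw [Prod.mk.injEq] at h1 h2
      simp only at h1 h2 a1 a2
      exact Prod.ext (by simp only; omega) (by simp only; omega)
    · exact ⟨q, hq, ht.2 _ hq _ (hr q hq) h2⟩
  · exact ⟨p, hp, ht.2 _ hp _ (hr p hp) h1⟩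

/-- two such points are in the same orbit -/
theorem same_orbit {N : ℕ} {p q : ℕ × ℕ} (hp : p ∈ T N) (hq : q ∈ T N) (h1 : Adj p (rot N p))
    (h2 : Adj q (rot N q)) : q = p ∨ q = rot N p ∨ q = rot N (rot N p) := by
  rw [mem_T] at hp hq
  obtain ⟨x, y⟩ := p
  obtain ⟨x', y'⟩ := q
  simp only at hp hq
  obtain ⟨z, hz⟩ : ∃ z, z = N - 1 - x - y := ⟨_, rfl⟩
  obtain ⟨z', hz'⟩ : ∃ z', z' = N - 1 - x' - y' := ⟨_, rfl⟩
  unfold Adj rot at h1 h2
  unfold rot
  simp only [← hz, ← hz'] at h1 h2 ⊢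
  obtain ⟨a1, a2, a3, a4⟩ := small h1
  obtain ⟨b1, b2, b3, b4⟩ := small h2
  have c1 : (x : ℤ) + y + z + 1 = N := by omega
  have c2 : (x' : ℤ) + y' + z' + 1 = N := by omega
  have d1 : ¬ ((x : ℤ) - y = 0 ∧ (y : ℤ) - z = 0) := fun h => by rw [h.1, h.2] at h1; norm_num at h1
  have d2 : ¬ ((x' : ℤ) - y' = 0 ∧ (y' : ℤ) - z' = 0) := fun h => by rw [h.1, h.2] at h2; norm_num at h2
  have d3 : ¬ ((x : ℤ) - y = 1 ∧ (y : ℤ) - z = 1) := fun h => by rw [h.1, h.2] at h1; norm_num at h1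
  have d4 : ¬ ((x' : ℤ) - y' = 1 ∧ (y' : ℤ) - z' = 1) := fun h => by rw [h.1, h.2] at h2; norm_num at h2
  have d5 : ¬ ((x : ℤ) - y = -1 ∧ (y : ℤ) - z = -1) := fun h => by rw [h.1, h.2] at h1; norm_num at h1
  have d6 : ¬ ((x' : ℤ) - y' = -1 ∧ (y' : ℤ) - z' = -1) := fun h => by rw [h.1, h.2] at h2; norm_num at h2
  have e : (x' = x ∧ y' = y) ∨ (x' = y ∧ y' = z) ∨ (x' = z ∧ y' = x) := by omega
  rcases e with e | e | e
  · exact .inl (Prod.ext e.1 e.2)
  · exact .inr (.inl (Prod.ext e.1 e.2))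
  · exact .inr (.inr (Prod.ext e.1 (by simp only; omega)))

/-- The number of the tiles of a rotationally symmetric tiling is `0` or `1` modulo `3`. -/
theorem mod_three {N : ℕ} {D : Finset (Finset (ℕ × ℕ))} (h : IsTiling N D) (hs : IsSymmetric N D) :
    D.card % 3 ≤ 1 := by
  classical
  have : Fact (Nat.Prime 3) := ⟨Nat.prime_three⟩
  let f : Function.End {t // t ∈ D} := fun t => ⟨t.1.image (rot N), hs t.1 t.2⟩
  have hf : f ^ 3 ^ 1 = 1 := by
    funext t
    refine Subtype.ext ?_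
    show ((t.1.image (rot N)).image (rot N)).image (rot N) = t.1
    rw [image_image, image_image]
    have h0 : ∀ p ∈ t.1, ((rot N ∘ rot N) ∘ rot N) p = id p := fun p hp => rot3 ((h.1 t.1 t.2).2 hp)
    rw [image_congr h0, image_id]
  have h1 := Equiv.Perm.card_fixedPoints_modEq (f := f) (p := 3) (n := 1) hf
  have h2 : Fintype.card f.fixedPoints ≤ 1 := by
    rw [Fintype.card_le_one_iff]
    rintro ⟨⟨t, ht⟩, hft⟩ ⟨⟨s, hs'⟩, hfs⟩
    have e1 : t.image (rot N) = t := congrArg Subtype.val hft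
    have e2 : s.image (rot N) = s := congrArg Subtype.val hfs
    obtain ⟨p, hp, hap⟩ := exists_pt (h.1 t ht).1 (h.1 t ht).2 e1
    obtain ⟨q, hq, haq⟩ := exists_pt (h.1 s hs').1 (h.1 s hs').2 e2
    have hrt : ∀ p ∈ t, rot N p ∈ t := fun p hp => by
      rw [← e1]
      exact mem_image_of_mem _ hp
    have hqt : q ∈ t := by
      rcases same_orbit ((h.1 t ht).2 hp) ((h.1 s hs').2 hq) hap haq with e | e | e
      · rw [e]; exact hp
      · rw [e]; exact hrt _ hp
      · rw [e]; exact hrt _ (hrt _ hp)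
    obtain ⟨r, -, hr⟩ := h.2 q ((h.1 s hs').2 hq)
    have e3 : t = s := (hr t ⟨ht, hqt⟩).trans (hr s ⟨hs', hq⟩).symm
    exact Subtype.ext (Subtype.ext e3)
  rw [Fintype.card_coe] at h1
  have h3 : D.card % 3 = Fintype.card f.fixedPoints % 3 := h1
  omega

/-- If `T N` has a rotationally symmetric tiling then the number `N (N + 1) / 6` of its tiles is `0` or `1` modulo `3`
(and `6` divides `N (N + 1)`); so `S(N) = 0` if `N` is `12`, `14`, `21` or `23` modulo `36`. -/
theorem result :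
    (∀ (N : ℕ) (D : Finset (Finset (ℕ × ℕ))), IsTiling N D → IsSymmetric N D →
      ∃ k : ℕ, N * (N + 1) = 6 * k ∧ k % 3 ≤ 1) ∧
    ∀ N : ℕ, N % 36 = 12 ∨ N % 36 = 14 ∨ N % 36 = 21 ∨ N % 36 = 23 → S N = 0 := by
  have key : ∀ (N : ℕ) (D : Finset (Finset (ℕ × ℕ))), IsTiling N D → IsSymmetric N D →
      ∃ k : ℕ, N * (N + 1) = 6 * k ∧ k % 3 ≤ 1 := fun N D h hs => by
    refine ⟨D.card, ?_, mod_three h hs⟩
    rw [← card_T, card_D h]
    ring
  refine ⟨key, fun N hN => ?_⟩
  unfold S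
  have : {D | IsTiling N D ∧ IsSymmetric N D} = (∅ : Set (Finset (Finset (ℕ × ℕ)))) := by
    rw [Set.eq_empty_iff_forall_notMem]
    rintro D ⟨h, hs⟩
    obtain ⟨k, h1, h2⟩ := key N D h hs
    obtain ⟨m, r, hr⟩ : ∃ m r, N = 36 * m + r ∧ (r = 12 ∨ r = 14 ∨ r = 21 ∨ r = 23) :=
      ⟨N / 36, N % 36, by omega, hN⟩
    obtain ⟨rfl, h3⟩ := hr
    rcases h3 with rfl | rfl | rfl | rfl <;> ring_nf at h1 <;> omega
  rw [this, Set.ncard_empty]

end Pool.Agent.Results.MP_ad0b59_co.SymmetricTilings
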